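import Pool.Agent.Helper32.FR.Defs
import Pool.Agent.Helper54.BA.CEcalc
import Pool.Agent.Helper84.BA.Pt

/-!
# Project FR: values at points, the calculus of complete embeddings for the values of the sentence
-/

set_option autoImplicit false
set_option linter.unusedSectionVars false

namespace Pool.Agent.Helper32.FR

open Pool.Agent.Helper33.HM Pool.Agent.Helper94.BA

universe u

section pts

variable {B : Type u} [CompleteBooleanAlgebra B]

/-- The complete Boolean combinations used in the file, evaluated at a point. -/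
theorem h31_ae_decV (x : ℕ → B) : ∀ᶠ φ in aeB B, ∀ n k, (φ (decV x n k) ↔
    (∃ j, j ≤ k ∧ φ (x (Nat.pair n j))) ∨ ∀ j, ¬ φ (x (Nat.pair n j))) := by
  filter_upwards [ae_forall fun n : ℕ => ae_forall fun k : ℕ =>
      ae_iSup fun j : ℕ => ⨆ _ : j ≤ k, x (Nat.pair n j),
    ae_forall fun n : ℕ => ae_iInf fun j : ℕ => (x (Nat.pair n j))ᶜ] with φ h1 h2 n k
  unfold decV
  rw [Pt.sup, h1, h2]
  simp

theorem h31_ae_leStar (f g : ℕ → ℕ → B) :
    ∀ᶠ φ in aeB B, (φ (leStar f g) ↔ ∃ m : ℕ, ∀ n, m ≤ n → ∀ k, φ (g n k) → φ (f n k)) := by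
  filter_upwards [ae_iSup fun m : ℕ => ⨅ n : ℕ, ⨅ _ : m ≤ n, ⨅ k : ℕ, g n k ⇨ f n k,
    ae_forall fun m : ℕ => ae_iInf fun n : ℕ => ⨅ _ : m ≤ n, ⨅ k : ℕ, g n k ⇨ f n k,
    ae_forall fun n : ℕ => ae_iInf fun k : ℕ => g n k ⇨ f n k] with φ h1 h2 h3
  unfold leStar
  rw [h1]
  refine exists_congr fun m => ?_
  rw [h2]
  refine forall_congr' fun n => ?_
  rw [Pt.iInf_prop]
  refine forall_congr' fun _ => ?_
  rw [h3]
  simp

/-- `lsV` is extensional in the first argument. -/
theorem h31_lsV_ext (x x' y : ℕ → B) : eqV x x' ⊓ lsV x' y ≤ lsV x y := by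
  unfold lsV
  refine le_of_ae ?_
  filter_upwards [ae_eqV x x', h31_ae_decV x, h31_ae_decV x', h31_ae_leStar (decV x) (decV y),
    h31_ae_leStar (decV x') (decV y)] with φ h1 h2 h3 h4 h5
  rw [Pt.inf, h1, h4, h5]
  rintro ⟨h6, m, h7⟩
  refine ⟨m, fun n hn k hk => ?_⟩
  have h8 := h7 n hn k hk
  rw [h3] at h8
  rw [h2]
  simp only [h6]
  exact h8

end pts

section emb

variable {A B : Type u} [CompleteBooleanAlgebra A] [CompleteBooleanAlgebra B] {e : A → B}

theorem h31_map_decV (he : CE e) (x : ℕ → A) (n k : ℕ) :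
    e (decV x n k) = decV (fun i => e (x i)) n k := by
  unfold decV
  rw [he.map_sup, he.map_iSup, he.map_iInf]
  simp only [he.map_iSup, he.map_compl]

theorem h31_map_lsV (he : CE e) (x y : ℕ → A) :
    e (lsV x y) = lsV (fun i => e (x i)) (fun i => e (y i)) := by
  unfold lsV
  rw [he.map_leStar]
  simp only [h31_map_decV he]

theorem h31_map_valV (he : CE e) (x : ℕ → A) (m j : ℕ) :
    e (valV x m j) = valV (fun i => e (x i)) m j := by
  unfold valV eqN
  rw [he.map_inf, he.map_iInf]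
  simp only [he.map_iInf, he.map_compl, h31_map_decV he]

theorem h31_map_incV (he : CE e) (x : ℕ → A) : e (incV x) = incV (fun i => e (x i)) := by
  unfold incV
  rw [he.map_iInf]
  simp only [he.map_iInf, he.map_himp, he.map_iSup, h31_map_decV he]

theorem h31_map_okV (he : CE e) (t : List ℕ) (x : ℕ → A) :
    e (okV t x) = okV t (fun i => e (x i)) := by
  unfold okV
  rw [he.map_iInf]
  simp only [he.map_iInf, he.map_compl, h31_map_valV he]

theorem h31_map_avV (he : CE e) (t : List ℕ) (x : ℕ → A) (s : List ℕ) :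
    e (avV t x s) = avV t (fun i => e (x i)) s := by
  unfold avV
  rw [he.map_iInf]
  simp only [he.map_iInf, he.map_compl, h31_map_valV he]

theorem h31_map_accS (he : CE e) (X : ℕ → ℕ → A) (m : ℕ) (C : ℕ → A) (t : List ℕ) (k : ℕ) :
    e (accS X m C t k) = accS (fun i n => e (X i n)) m (fun n => e (C n)) t k := by
  unfold accS
  rw [he.map_iSup]
  simp only [he.map_iSup, he.map_inf, he.map_iInf, he.map_himp, h31_map_okV he, h31_map_avV he]

theorem h31_map_accV (he : CE e) (c : Ordinal.{0} → ℕ → A) (γ : Ordinal.{0}) (C : ℕ → A)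
    (t : List ℕ) : e (accV c γ C t) = accV (fun β n => e (c β n)) γ (fun n => e (C n)) t := by
  unfold accV
  rw [he.map_iInf]
  simp only [he.map_iInf, h31_map_accS he]

theorem h31_map_convV (he : CE e) (c : Ordinal.{0} → ℕ → A) (γ : Ordinal.{0}) (t : List ℕ)
    (Z : ℕ → A) : e (convV c γ t Z) = convV (fun β n => e (c β n)) γ t fun n => e (Z n) := by
  unfold convV
  rw [he.map_inf, he.map_inf, he.map_compl, he.map_finV, he.map_iInf, he.map_iInf]
  simp only [he.map_iInf, he.map_himp, he.map_finV, he.map_inf, he.map_compl, he.map_iSup,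
    h31_map_okV he, h31_map_avV he]

theorem h31_map_piV (he : CE e) (c : Ordinal.{0} → ℕ → A) (γ : Ordinal.{0}) (C : ℕ → A)
    (t : List ℕ) (Z : ℕ → A) : e (piV c γ C t Z) =
      piV (fun β n => e (c β n)) γ (fun n => e (C n)) t fun n => e (Z n) := by
  unfold piV
  rw [he.map_inf, he.map_iInf, he.map_himp]
  simp only [he.map_himp, h31_map_accV he, h31_map_convV he]

end emb

section ext

variable {B : Type u} [CompleteBooleanAlgebra B]

theorem h31_accS_ext (X : ℕ → ℕ → B) (m : ℕ) (C C' : ℕ → B) (t : List ℕ) (k : ℕ) :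
    eqV C C' ⊓ accS X m C t k ≤ accS X m C' t k := by
  unfold accS
  rw [inf_iSup_eq]
  refine iSup_le fun n => ?_
  rw [inf_iSup_eq]
  refine iSup_le fun hn => ?_
  refine le_iSup_of_le n (le_iSup_of_le hn ?_)
  refine le_inf ?_ (inf_le_right.trans inf_le_right)
  refine le_trans (inf_le_inf (iInf_le _ n) inf_le_left) ?_
  unfold iffV
  exact le_trans (inf_le_inf_right _ inf_le_left) himp_inf_le

theorem h31_accV_ext (c : Ordinal.{0} → ℕ → B) (γ : Ordinal.{0}) (C C' : ℕ → B) (t : List ℕ) :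
    eqV C C' ⊓ accV c γ C t ≤ accV c γ C' t := by
  unfold accV
  refine le_iInf fun l => le_iInf fun m => le_iInf fun hm => le_iInf fun k => ?_
  refine le_trans (inf_le_inf_left _ ?_) (h31_accS_ext _ m C C' t k)
  exact (iInf_le _ l).trans ((iInf_le _ m).trans ((iInf_le _ hm).trans (iInf_le _ k)))

theorem h31_eqV_symm (x y : ℕ → B) : eqV x y = eqV y x := by
  unfold eqV iffV
  simp only [inf_comm]

theorem h31_piV_ext (c : Ordinal.{0} → ℕ → B) (γ : Ordinal.{0}) (C C' : ℕ → B) (t : List ℕ)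
    (Z : ℕ → B) : eqV C C' ⊓ piV c γ C t Z ≤ piV c γ C' t Z := by
  unfold piV
  refine le_inf ?_ ?_
  · refine le_iInf fun n => ?_
    rw [le_himp_iff]
    have h1 : eqV C C' ≤ (C n ⇨ C' n) := (iInf_le _ n).trans inf_le_left
    have h2 : (⨅ n : ℕ, Z n ⇨ C n) ≤ (Z n ⇨ C n) := iInf_le _ n
    calc eqV C C' ⊓ ((⨅ n : ℕ, Z n ⇨ C n) ⊓ (accV c γ C t ⇨ convV c γ t Z)) ⊓ Z n
        ≤ (C n ⇨ C' n) ⊓ ((Z n ⇨ C n) ⊓ Z n) := by
          refine le_inf (inf_le_left.trans (inf_le_left.trans h1)) ?_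
          exact le_inf (inf_le_left.trans (inf_le_right.trans (inf_le_left.trans h2)))
            inf_le_right
      _ ≤ (C n ⇨ C' n) ⊓ C n := inf_le_inf_left _ himp_inf_le
      _ ≤ C' n := himp_inf_le
  · rw [le_himp_iff]
    have h1 : eqV C C' ⊓ accV c γ C' t ≤ accV c γ C t := by
      rw [h31_eqV_symm]
      exact h31_accV_ext c γ C' C t
    calc eqV C C' ⊓ ((⨅ n : ℕ, Z n ⇨ C n) ⊓ (accV c γ C t ⇨ convV c γ t Z)) ⊓ accV c γ C' t
        ≤ (accV c γ C t ⇨ convV c γ t Z) ⊓ accV c γ C t := by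
          refine le_inf (inf_le_left.trans (inf_le_right.trans inf_le_right)) ?_
          exact le_trans (le_inf (inf_le_left.trans inf_le_left) inf_le_right) h1
      _ ≤ convV c γ t Z := himp_inf_le

/-- A value is the top as soon as it meets every element below some element. -/
theorem h31_eq_top {a : B} (h : ∀ b : B, b ≠ ⊥ → ∃ c, c ≤ b ∧ c ≠ ⊥ ∧ c ≤ a) : a = ⊤ := by
  by_contra hcon
  have h1 : aᶜ ≠ ⊥ := fun h2 => hcon (by rwa [compl_eq_bot] at h2)
  obtain ⟨c, hc1, hc2, hc3⟩ := h _ h1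
  exact hc2 (le_bot_iff.1 ((le_inf hc3 hc1).trans inf_compl_eq_bot.le))

end ext

end Pool.Agent.Helper32.FR
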