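import Pool.Agent.Helper31.FR.Base

/-!
# Project FR, E3: transfer of the relative pseudo-intersections
-/

set_option autoImplicit false
set_option linter.unusedSectionVars false

namespace Pool.Agent.Helper32.FR

open Pool.Agent.Helper33.HM Pool.Agent.Helper94.BA

section E

variable {A B : Type 1} [CompleteBooleanAlgebra A] [CompleteBooleanAlgebra B] {e : A → B}

/-- FR-E3 -/
theorem pi_map (he : CE e) (hn : NoNew e) {c : Ordinal.{0} → ℕ → A}
    (h : ∀ γ X t, ∃ Z : ℕ → A, piV c γ X t Z = ⊤) (γ : Ordinal.{0}) (X : ℕ → B) (t : List ℕ) :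
    ⨆ Z : ℕ → B, piV (fun β n => e (c β n)) γ X t Z = ⊤ := by
  refine h31_eq_top fun b hb => ?_
  obtain ⟨d, hd, hd0, X', hX'⟩ := hn b hb X
  obtain ⟨Z, hZ⟩ := h γ X' t
  refine ⟨d, hd, hd0, le_iSup_of_le (fun n => e (Z n)) ?_⟩
  have h1 : piV (fun β n => e (c β n)) γ (fun n => e (X' n)) t (fun n => e (Z n)) = ⊤ := by
    rw [← h31_map_piV he, hZ, he.map_top]
  have h2 := h31_piV_ext (fun β n => e (c β n)) γ (fun n => e (X' n)) X t (fun n => e (Z n))
  rw [h1, inf_top_eq, h31_eqV_symm] at h2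
  exact le_trans (le_iInf hX') h2

end E

end Pool.Agent.Helper32.FR
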