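import Pool.Agent.Helper31.FR.Base

/-!
# Project FR, E1: transfer of the scale
-/

set_option autoImplicit false
set_option linter.unusedSectionVars false

namespace Pool.Agent.Helper32.FR

open Pool.Agent.Helper33.HM Pool.Agent.Helper94.BA

section E

variable {A B : Type 1} [CompleteBooleanAlgebra A] [CompleteBooleanAlgebra B] {e : A → B}

/-- FR-E1 -/
theorem scale_map (he : CE e) (hn : NoNew e) {c : Ordinal.{0} → ℕ → A} (hc : Scale c) :
    Scale fun β n => e (c β n) where
  inc β := by rw [← h31_map_incV he, hc.inc, he.map_top]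
  mono β γ h := by rw [← h31_map_lsV he, hc.mono β γ h, he.map_top]
  strict β γ h := by rw [← h31_map_lsV he, hc.strict β γ h, he.map_bot]
  root β n := by
    obtain ⟨γ, h1, h2⟩ := hc.root β n
    exact ⟨γ, h1, by rw [← h31_map_decV he, h2, he.map_bot]⟩
  dom g := by
    refine h31_eq_top fun b hb => ?_
    obtain ⟨d, hd, hd0, g', hg'⟩ := hn b hb g
    have h1 : ⨆ β, lsV (fun n => e (g' n)) (fun n => e (c β n)) = ⊤ := by
      rw [← he.map_top, ← hc.dom g', he.map_iSup]
      simp only [h31_map_lsV he]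
    have h2 : d ⊓ ⨆ β, lsV (fun n => e (g' n)) (fun n => e (c β n)) ≠ ⊥ := by
      rw [h1, inf_top_eq]
      exact hd0
    refine ⟨d ⊓ ⨆ β, lsV (fun n => e (g' n)) (fun n => e (c β n)), inf_le_left.trans hd, h2, ?_⟩
    rw [inf_iSup_eq]
    refine iSup_mono fun β => ?_
    refine le_trans (inf_le_inf_right _ ?_) (h31_lsV_ext g (fun n => e (g' n)) _)
    exact le_iInf hg'

end E

end Pool.Agent.Helper32.FR
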